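import Pool.Agent.Q303.PolyB

/-! MP_27056a_lc: a free Borel action of `Z^d` all of whose coordinate subactions have Borel
proper 2-colourings and whose grid graph has no Borel `2^d`-polychromatic colouring. -/

open Set Topology Filter MeasureTheory

namespace Pool.Agent.Results.MP_27056a_lc.NoPolychromatic

open Pool.Agent.Q303.Poly

/-- For every `d ≥ 2` there is a free Borel action of `Z^d` on a standard Borel space such that
each coordinate subaction has a Borel proper 2-colouring, but there is no Borel map to `2^d`
colours for which each unit cube sees all colours. -/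
theorem result (d : ℕ) (hd : 2 ≤ d) :
    ∃ (X : Type) (_ : MeasurableSpace X) (_ : StandardBorelSpace X) (_ : AddAction (Fin d → ℤ) X),
      (∀ z : Fin d → ℤ, Measurable (fun x : X => z +ᵥ x)) ∧
      (∀ (z : Fin d → ℤ) (x : X), z +ᵥ x = x → z = 0) ∧
      (∀ i : Fin d, ∃ c : X → Bool, Measurable c ∧
        ∀ x : X, c ((Pi.single i 1 : Fin d → ℤ) +ᵥ x) ≠ c x) ∧
      ¬ ∃ c : X → Fin (2 ^ d), Measurable c ∧
        ∀ (x : X) (k : Fin (2 ^ d)), ∃ ε : Fin d → ℤ, (∀ i, ε i = 0 ∨ ε i = 1) ∧
          c (ε +ᵥ x) = k := by
  classical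
  let i0 : Fin d := ⟨0, by omega⟩
  let i1 : Fin d := ⟨1, by omega⟩
  have h01 : i0 ≠ i1 := by
    intro h
    have := congrArg Fin.val h
    simp [i0, i1] at this
  refine ⟨Fr i0 i1, inferInstance, (Fr_meas i0 i1).standardBorel, frAct i0 i1, ?_, ?_, ?_, ?_⟩
  · intro z
    exact ((act_cont i0 i1 z).measurable.comp measurable_subtype_coe).subtype_mk
  · intro z x h
    by_contra hz
    exact x.2 z hz (congrArg Subtype.val h)
  · intro i
    by_cases h0 : i = i0
    · refine ⟨fun x => x.1.1.1 0, ?_, ?_⟩
      · exact (measurable_pi_apply 0).comp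
          (measurable_fst.comp (measurable_fst.comp measurable_subtype_coe))
      · intro x
        show xor (x.1.1.1 (0 + Function.update (Pi.single i 1) i0 0))
          (par ((Pi.single i 1 : Fin d → ℤ) i0)) ≠ x.1.1.1 0
        have h2 : Function.update (Pi.single i 1 : Fin d → ℤ) i0 0 = 0 := by
          funext j
          by_cases hj : j = i0
          · subst hj; simp
          · rw [Function.update_of_ne hj, h0, Pi.single_eq_of_ne hj, Pi.zero_apply]
        rw [h2, h0, Pi.single_eq_same, par_one, add_zero]
        cases x.1.1.1 0 <;> simp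
    · by_cases h1 : i = i1
      · refine ⟨fun x => x.1.1.2 0, ?_, ?_⟩
        · exact (measurable_pi_apply 0).comp
            (measurable_snd.comp (measurable_fst.comp measurable_subtype_coe))
        · intro x
          show xor (x.1.1.2 (0 + Function.update (Pi.single i 1) i1 0))
            (par ((Pi.single i 1 : Fin d → ℤ) i1)) ≠ x.1.1.2 0
          have h2 : Function.update (Pi.single i 1 : Fin d → ℤ) i1 0 = 0 := by
            funext j
            by_cases hj : j = i1
            · subst hj; simp
            · rw [Function.update_of_ne hj, h1, Pi.single_eq_of_ne hj, Pi.zero_apply]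
          rw [h2, h1, Pi.single_eq_same, par_one, add_zero]
          cases x.1.1.2 0 <;> simp
      · refine ⟨fun x => x.1.2 i, ?_, ?_⟩
        · exact (measurable_pi_apply i).comp (measurable_snd.comp measurable_subtype_coe)
        · intro x
          show xor (x.1.2 i) (decide (i ≠ i0 ∧ i ≠ i1) && par ((Pi.single i 1 : Fin d → ℤ) i)) ≠
            x.1.2 i
          rw [Pi.single_eq_same, par_one]
          cases x.1.2 i <;> simp [h0, h1]
  · rintro ⟨c, hc, hpoly⟩
    refine no_poly h01 c hc ?_
    intro x k
    obtain ⟨ε, hε, hk⟩ := hpoly x k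
    refine ⟨fun i => decide (ε i = 1), ?_⟩
    have h2 : vec (fun i => decide (ε i = 1)) = ε := by
      funext i
      rcases hε i with h | h <;> simp [vec, h]
    rw [← hk]
    congr 1
    apply Subtype.ext
    show act i0 i1 (vec fun i => decide (ε i = 1)) x.1 = act i0 i1 ε x.1
    rw [h2]

end Pool.Agent.Results.MP_27056a_lc.NoPolychromatic
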